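import Pool.Agent.Y103.Sh.Defs
import Pool.Agent.Y138.KC.Defs
import Pool.Agent.R900.PT.NCTateDefs

/-!
# Varieties built from pieces of K3 type, towers of products, and dg categories: definitions
-/

set_option autoImplicit false

open CategoryTheory AlgebraicGeometry NumberField

universe u v

namespace Pool.Agent.T2H38.HK

open Pool.Agent.H914 Pool.Agent.H914.VarClass Pool.Agent.H914.VarClass.Obj
  Pool.Agent.H914.WeilCohomology Pool.Agent.W534 Pool.Agent.W517.K3 Pool.Agent.Y138.KC
  Pool.Agent.Y103.Hk Pool.Agent.Y103.Sh Pool.Agent.R900.PT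

/-- The *signs of `E` are separated*: for all embeddings `σ`, `τ` of `E` with `τ` different from `σ` and
from its complex conjugate there is an automorphism that maps each embedding to itself or to its
complex conjugate, that fixes `σ` and that maps `τ` to its complex conjugate. -/
def HasSeparatedSigns (E : Type) [Field E] [NumberField E] [IsCMField E] : Prop :=
  ∀ σ τ : E →+* AlgebraicClosure ℚ, τ ≠ σ →
    τ ≠ σ.comp (IsCMField.complexConj E : E →+* E) →
      ∃ g : AlgebraicClosure ℚ ≃ₐ[ℚ] AlgebraicClosure ℚ,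
        (∀ ρ : E →+* AlgebraicClosure ℚ, (∀ x, g (ρ x) = ρ x) ∨
          ∀ x, g (ρ x) = ρ (IsCMField.complexConj E x)) ∧
        (∀ x, g (σ x) = σ x) ∧ ∀ x, g (τ x) = τ (IsCMField.complexConj E x)

/-- The number `α` is *free*: either it is a Frobenius number of K3 type of degree `2 d` which
satisfies the numerical condition `IsGoodNumber`; or all complex absolute values of `α` are one, some
conjugate is not a unit at the place `ι`, and the signs of `E` are separated. -/
def IsFree {p : ℕ} [Fact p.Prime] (ι : AlgebraicClosure ℚ →+* PadicAlgCl p)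
    {E : Type} [Field E] [NumberField E] [IsCMField E] (α : E) : Prop :=
  (∃ a d, IsK3Frobenius p a α ∧ Module.finrank ℚ E = 2 * d ∧ IsGoodNumber p α d) ∨
    ((∀ φ : E →+* ℂ, ‖φ α‖ = 1) ∧ (∃ σ : E →+* AlgebraicClosure ℚ, ‖ι (σ α)‖ ≠ 1) ∧
      HasSeparatedSigns E)

/-- The number `α` is a Frobenius number of K3 type of degree `2 d ≤ 22`, of local degree `m`, and
`n ≤ 3`, `(d, m)` not one of the nine `exceptionalPairs`, or `d` is a prime number greater than `n`. -/
def IsAlmostFree (p : ℕ) [Fact p.Prime] {E : Type} [Field E] [NumberField E] [IsCMField E] (α : E)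
    (n : ℕ) : Prop :=
  ∃ a d, IsK3Frobenius p a α ∧ Module.finrank ℚ E = 2 * d ∧ d ≤ 11 ∧
    ((n ≤ 3 ∧ (d, localDegree p α) ∉ exceptionalPairs) ∨ (d.Prime ∧ n < d))

/-- The condition on the number `α` of `E`, on the number `n` of copies and on the fields in `𝓛`:
either `α` is free, and each `L ∈ 𝓛` is Galois over `ℚ`, with totally real intersection with all
images of `E`, or it is one exceptional Galois field `L₀` with `L₀ ∩ E` totally real or of degree
`[E : L₀ ∩ E] > n`; or `α` is almost free, and some automorphism is the identity on all fields in `𝓛`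
and the complex conjugation on all conjugates of `E`. -/
def StepCondition {p : ℕ} [Fact p.Prime] (ι : AlgebraicClosure ℚ →+* PadicAlgCl p)
    {E : Type} [Field E] [NumberField E] [IsCMField E] (α : E) (n : ℕ)
    (𝓛 : Set (IntermediateField ℚ (AlgebraicClosure ℚ))) : Prop :=
  (IsFree ι α ∧ ∃ L₀ : IntermediateField ℚ (AlgebraicClosure ℚ), IsStable L₀ ∧
    SmallIntersection E L₀ n ∧ ∀ L ∈ 𝓛, IsAllowed E L₀ L) ∨
  (IsAlmostFree p α n ∧ IsIndependentField E (sSup 𝓛))

/-- `Z` is built from `n` copies of the piece of the cohomology of `X` in degree `2 b` that belongs to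
the conjugates of `α`; the Tate conjecture in codimension `2 b` holds for `X × X`. -/
structure IsBuilt {k : Type u} [Field k] {𝒱 : VarClass k} {ops : CycleOps 𝒱}
    {W : WeilCohomology.{u, v} ops} {p : ℕ} (Φ : FrobSystem W p) (X : 𝒱.Obj) (b e : ℕ)
    {E : Type} [Field E] (α : E) (n : ℕ) (Z : 𝒱.Obj) : Prop where
  pos : 0 < e
  square : TateIn Φ (X.prod X) (2 * b)
  built : IsBuiltFrom Φ X b e α n Z
  nonempty : HasCycle W Z 0

/-- `Y` is obtained from `U` by successive products with varieties `Z` which are built from copies of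
pieces of K3 type, and `𝓛` consists of the fields in `𝓤` (which determine the slopes of `U`) and of
the Galois closures of the fields of these pieces. -/
inductive IsTower {k : Type u} [Field k] {𝒱 : VarClass k} {ops : CycleOps 𝒱}
    {W : WeilCohomology.{u, v} ops} {p : ℕ} [Fact p.Prime] (Φ : FrobSystem W p)
    (ι : AlgebraicClosure ℚ →+* PadicAlgCl p) (U : 𝒱.Obj)
    (𝓤 : Set (IntermediateField ℚ (AlgebraicClosure ℚ))) :
    Set (IntermediateField ℚ (AlgebraicClosure ℚ)) → 𝒱.Obj → Prop
  | base : IsTower Φ ι U 𝓤 𝓤 U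
  | step {𝓛 : Set (IntermediateField ℚ (AlgebraicClosure ℚ))} {X Y Z : 𝒱.Obj} {b e n : ℕ}
      {E : Type} [Field E] [NumberField E] [IsCMField E] {α : E} :
      IsTower Φ ι U 𝓤 𝓛 Y → IsBuilt Φ X b e α n Z → StepCondition ι α n 𝓛 →
        IsTower Φ ι U 𝓤 (insert (galoisClosure E) 𝓛) (Z.prod Y)

/-- `A` is the dg category of the perfect complexes on a smooth projective scheme `X₀` over a finite
field, and `X` is the base change of `X₀` to an algebraic closure. By Thomason the noncommutative
conjecture of Tate for `A` is equivalent to the conjecture of Tate for `X` in all codimensions. -/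
def IsPerfCat {k : Type u} [Field k] {𝒱 : VarClass k} {ops : CycleOps 𝒱}
    {W : WeilCohomology.{u, v} ops} {p : ℕ} (Φ : FrobSystem W p) (l : ℕ) [Fact l.Prime] {D : Type}
    (P : D → ℕ → Type) [∀ A n, AddCommGroup (P A n)] (X : 𝒱.Obj) (A : D) : Prop :=
  NCTate l (P A) ↔ ∀ c, TateIn Φ X c

/-- `A` is the dg category of the perfect complexes on a tower `Y` over a variety `U` for which the
conjecture of Tate holds in all codimensions. -/
def IsPerfOfTower {k : Type u} [Field k] {𝒱 : VarClass k} {ops : CycleOps 𝒱}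
    {W : WeilCohomology.{u, v} ops} {p : ℕ} [Fact p.Prime] (Φ : FrobSystem W p)
    (ι : AlgebraicClosure ℚ →+* PadicAlgCl p) (l : ℕ) [Fact l.Prime] {D : Type}
    (P : D → ℕ → Type) [∀ A n, AddCommGroup (P A n)] (A : D) : Prop :=
  ∃ (U Y : 𝒱.Obj) (𝓤 𝓛 : Set (IntermediateField ℚ (AlgebraicClosure ℚ))),
    HasSlopes Φ ι 𝓤 U ∧ (∀ c, TateIn Φ U c) ∧ IsTower Φ ι U 𝓤 𝓛 Y ∧ IsPerfCat Φ l P Y A

end Pool.Agent.T2H38.HK
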