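import Pool.Agent.T2H38.HK.Slopes
import Pool.Agent.R900.PT.NCTate

/-!
# The noncommutative Tate conjecture for towers of products with varieties of K3 type
-/

set_option autoImplicit false
set_option linter.unusedSectionVars false

open CategoryTheory AlgebraicGeometry NumberField Polynomial
open scoped TensorProduct

universe u v

namespace Pool.Agent.T2H38.HK

open Pool.Agent.H914 Pool.Agent.H914.VarClass Pool.Agent.H914.VarClass.Obj
  Pool.Agent.H914.WeilCohomology Pool.Agent.H281R3.HT Pool.Agent.W552 Pool.Agent.W534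
  Pool.Agent.TH121.KT Pool.Agent.W517.K3 Pool.Agent.Y138.KC Pool.Agent.Y103.Hk
  Pool.Agent.Y103.Sh Pool.Agent.R900.PT

variable {k : Type u} [Field k] {𝒱 : VarClass k} {ops : CycleOps 𝒱}
  {W : WeilCohomology.{u, v} ops} {p : ℕ} [Fact p.Prime] {Φ : FrobSystem W p}
  {ι : Qb →+* PadicAlgCl p}

section step

variable {X Z U : 𝒱.Obj} {b e n : ℕ} {E : Type} [Field E] [NumberField E]
  [IsCMField E] {α : E} {𝓛 : Set (IntermediateField ℚ Qb)}

/-- the Tate classes on the products of `Z` split -/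
theorem timesP_step [IsAlgClosed W.K] (hZ : IsBuilt Φ X b e α n Z) (hc : StepCondition ι α n 𝓛) :
    TateTimesP Φ (IsSlopeProduct ι 𝓛) Z := by
  rcases hc with ⟨hfree, L₀, hL₀, hsmall, h𝓛⟩ | ⟨⟨a, d, hα, hd, hd11, hgood⟩, hind⟩
  · have hR := noRel_of_free hfree
    have hP : PairsAlg Φ X b e α := pairs_of_tate hR.unitary hZ.pos hZ.square
    exact tateTimesP_many hP hZ.pos hZ.built hR hL₀ (largeOrbits_of hL₀ hsmall)
      fun L hL => allowed_conj (h𝓛 L hL)
  · have hP : PairsAlg Φ X b e α := pairs_of_tate hα.unitary hZ.pos hZ.square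
    have hg : GoodHk d (localDegree p α) n := by
      refine ⟨hd11, ?_⟩
      rcases hgood with h | h
      · exact Or.inl h
      · exact Or.inr (Or.inr h)
    exact timesP_mono (fun ν hν => inL_of_inM hν)
      (tateTimesP_built hP hZ.pos hZ.built (zeroProp_good hα hd rfl hg hind))

/-- **One step.** -/
theorem step_iff [IsAlgClosed W.K] (hZ : IsBuilt Φ X b e α n Z) (hc : StepCondition ι α n 𝓛)
    (hU : HasSlopes Φ ι 𝓛 U) :
    (∀ c, TateIn Φ (Z.prod U) c) ↔ ∀ c, TateIn Φ U c := by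
  have hp := (Fact.out : p.Prime).one_lt
  have hTT := timesP_step hZ hc
  have key : ∀ c, TateIn Φ (Z.prod U) c ↔
      ∀ i ≤ c, (∃ x, Z.IsCyc i x ∧ ¬ TH132.A.HomEq W x 0) → TateIn Φ U (c - i) := by
    intro c
    rw [Y138.TU.tateIn_iff, Y138.TU.tateK_prod_iff hp hTT (inM_one _)
      (fun ν n _ h => inM_pow ν n h) hU]
    simp only [Y138.TU.tateIn_iff]
  constructor
  · intro h c
    have h1 := (key c).1 (h c) 0 (Nat.zero_le c) (hasCycle_iff.1 hZ.nonempty)
    rwa [Nat.sub_zero] at h1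
  · intro h c
    exact (key c).2 fun i _ _ => h (c - i)

/-- the slopes of the product -/
theorem slopes_step [IsAlgClosed W.K] (hZ : IsBuilt Φ X b e α n Z) (hU : HasSlopes Φ ι 𝓛 U) :
    HasSlopes Φ ι (insert (galoisClosure E) 𝓛) (Z.prod U) := by
  refine hasSlopes_prod (hasSlopes_mono ?_ (hasSlopes_built hZ.pos hZ.built))
    (hasSlopes_mono (Set.subset_insert _ _) hU)
  rintro L hL
  rw [Set.mem_singleton_iff] at hL
  exact hL ▸ Set.mem_insert _ _

end step

variable {U Y : 𝒱.Obj} {𝓤 𝓛 : Set (IntermediateField ℚ Qb)}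

/-- **Towers.** -/
theorem tower [IsAlgClosed W.K] (hU : HasSlopes Φ ι 𝓤 U) (hY : IsTower Φ ι U 𝓤 𝓛 Y) :
    HasSlopes Φ ι 𝓛 Y ∧ ((∀ c, TateIn Φ Y c) ↔ ∀ c, TateIn Φ U c) := by
  induction hY with
  | base => exact ⟨hU, Iff.rfl⟩
  | step _ hZ hc ih =>
    exact ⟨slopes_step hZ ih.1, (step_iff hZ hc ih.1).trans ih.2⟩

/-- **The noncommutative conjecture for generated categories.** -/
theorem nc_generated {D : Type} {l : ℕ} [Fact l.Prime] {P : D → ℕ → Type}
    [∀ A n, AddCommGroup (P A n)] {S : D → Prop} (hS : ∀ A, S A → NCTate l (P A)) {A : D}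
    (hA : NCGenerated P S A) : NCTate l (P A) := by
  induction hA with
  | base A h => exact hS A h
  | summand A B h _ ih =>
    obtain ⟨N, hN, h1⟩ := h
    intro n hn f
    obtain ⟨s, t, h2⟩ := h1 n
    ext x
    obtain ⟨y, rfl⟩ := pruefer_div l N hN x
    have h3 : ∀ k, s k (f y) = 0 := fun k => DFunLike.congr_fun (ih k n hn ((s k).comp f)) y
    rw [map_nsmul, ← h2, Finset.sum_eq_zero fun k _ => by rw [h3, map_zero]]
    rfl

theorem main [IsAlgClosed W.K] {D : Type} (l : ℕ) [Fact l.Prime] (P : D → ℕ → Type)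
    [∀ A n, AddCommGroup (P A n)] :
    (∀ (U Y : 𝒱.Obj) (𝓤 𝓛 : Set (IntermediateField ℚ Qb)), HasSlopes Φ ι 𝓤 U →
      IsTower Φ ι U 𝓤 𝓛 Y → ∀ A B : D, IsPerfCat Φ l P Y A → IsPerfCat Φ l P U B →
        (NCTate l (P A) ↔ NCTate l (P B))) ∧
    ∀ A : D, NCGenerated P (IsPerfOfTower Φ ι l P) A → NCTate l (P A) := by
  refine ⟨fun U Y 𝓤 𝓛 hU hY A B hA hB => ?_, fun A hA => nc_generated ?_ hA⟩
  · unfold IsPerfCat at hA hB
    rw [hA, hB]
    exact (tower hU hY).2
  · rintro B ⟨U, Y, 𝓤, 𝓛, hU, hT, hY, hB⟩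
    unfold IsPerfCat at hB
    exact hB.2 ((tower hU hY).2.2 hT)

end Pool.Agent.T2H38.HK
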