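import Pool.Agent.T2H38.HK.Defs
import Pool.Agent.Y103.Sh.Arith

/-!
# Fields with separated signs: there are no relations
-/

set_option autoImplicit false
set_option linter.unusedSectionVars false

open NumberField Polynomial Module

namespace Pool.Agent.T2H38.HK

open Pool.Agent.TH121.KT Pool.Agent.W517.K3 Pool.Agent.Y138.KC Pool.Agent.Y103.Hk
  Pool.Agent.Y103.Sh

variable {p : ℕ} [Fact p.Prime] {ι : Qb →+* PadicAlgCl p} {E : Type} [Field E] [NumberField E]
  [IsCMField E] {α : E}

open Classical in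
/-- the support -/
noncomputable def supp (f : (E →+* Qb) → ℤ) : Finset (E →+* Qb) := Finset.univ.filter fun σ => f σ ≠ 0

lemma mem_supp {f : (E →+* Qb) → ℤ} {σ : E →+* Qb} : σ ∈ supp f ↔ f σ ≠ 0 := by
  simp [supp]

/-- functions supported on one pair -/
lemma zero_of_pair (hu : ∀ φ : E →+* ℂ, ‖φ α‖ = 1) (hne : ∃ σ : E →+* Qb, ‖ι (σ α)‖ ≠ 1)
    {f : (E →+* Qb) → ℤ} (hf : IsOdd f) (hR : ∀ g, RR ι α f g = 0) (σ : E →+* Qb)
    (hsupp : ∀ ρ, ρ ≠ σ → ρ ≠ cj σ → f ρ = 0) : f σ = 0 := by
  classical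
  obtain ⟨τ, hτ⟩ := hne
  obtain ⟨g, hg⟩ := exists_act_eq σ τ
  have h2 := hR g
  have hcj : cj σ ≠ σ := Y138.KH.cj_ne_self σ
  have h3 : RR ι α f g = ∑ ρ : E →+* Qb, (f ρ : ℝ) * Real.log ‖ι ((act g ρ) α)‖ := rfl
  rw [h3, ← Finset.sum_subset (Finset.subset_univ {σ, cj σ})] at h2
  · rw [Finset.sum_pair (Ne.symm hcj), hf σ] at h2
    have h4 : Real.log ‖ι ((act g (cj σ)) α)‖ = - Real.log ‖ι ((act g σ) α)‖ := by
      rw [act_cj, cj_norm hu, Real.log_inv]
    rw [h4, hg] at h2
    push_cast at h2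
    have h5 : Real.log ‖ι (τ α)‖ ≠ 0 :=
      Real.log_ne_zero_of_pos_of_ne_one (norm_pos' hu τ) hτ
    have h6 : (f σ : ℝ) * Real.log ‖ι (τ α)‖ = 0 := by linarith
    exact_mod_cast (mul_eq_zero.1 h6).resolve_right h5
  · intro ρ _ hρ
    rw [Finset.mem_insert, Finset.mem_singleton, not_or] at hρ
    rw [hsupp ρ hρ.1 hρ.2, Int.cast_zero, zero_mul]

/-- **There are no relations if the signs are separated.** -/
theorem noRel_separated (hu : ∀ φ : E →+* ℂ, ‖φ α‖ = 1) (hne : ∃ σ : E →+* Qb, ‖ι (σ α)‖ ≠ 1)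
    (hs : HasSeparatedSigns E) : NoRel ι α := by
  classical
  refine ⟨hu, ?_⟩
  have key : ∀ (n : ℕ) (f : (E →+* Qb) → ℤ), IsOdd f → (∀ g, RR ι α f g = 0) →
      (supp f).card ≤ n → ∀ σ, f σ = 0 := by
    intro n
    induction n with
    | zero =>
      intro f _ _ hc σ
      by_contra h
      have h1 : σ ∈ supp f := mem_supp.2 h
      rw [Finset.card_eq_zero.1 (Nat.le_zero.1 hc)] at h1
      exact absurd h1 (Finset.notMem_empty _)
    | succ n ih =>
      intro f hf hR hc σ
      by_cases hex : ∃ τ, f τ ≠ 0 ∧ τ ≠ σ ∧ τ ≠ cj σ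
      · obtain ⟨τ, hτ0, hτ1, hτ2⟩ := hex
        by_contra hσ
        obtain ⟨g, hg, hgτ, hgσ⟩ := hs τ σ (Ne.symm hτ1) (fun h => hτ2 (by
          have h1 : σ = cj τ := h
          rw [h1, cj_cj]))
        -- the action
        have hactτ : act g τ = τ := RingHom.ext hgτ
        have hactσ : act g σ = cj σ := RingHom.ext hgσ
        have hall : ∀ ρ : E →+* Qb, act g ρ = ρ ∨ act g ρ = cj ρ := fun ρ =>
          (hg ρ).imp (fun h => RingHom.ext h) (fun h => RingHom.ext h)
        have hinv : ∀ ρ : E →+* Qb, act g⁻¹ ρ = act g ρ := by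
          intro ρ
          have h1 : act g (act g ρ) = ρ := by
            rcases hall ρ with h | h
            · rw [h, h]
            · rw [h, act_cj, h, cj_cj]
          calc act g⁻¹ ρ = act g⁻¹ (act g (act g ρ)) := by rw [h1]
            _ = act g ρ := act_inv_act g _
        set f' : (E →+* Qb) → ℤ := f - Y103.Hk.tr g f with hf'
        have hval : ∀ ρ, f' ρ = f ρ - f (act g ρ) := by
          intro ρ
          rw [hf', Pi.sub_apply, tr_apply, hinv]
        have hodd : IsOdd f' := hf.sub (hf.tr g)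
        have hR' : ∀ h, RR ι α f' h = 0 := by
          intro h
          rw [hf', RR_sub, RR_tr, hR, hR, sub_zero]
        have hsub : supp f' ⊆ (supp f).erase τ := by
          intro ρ hρ
          rw [mem_supp, hval] at hρ
          rw [Finset.mem_erase, mem_supp]
          refine ⟨?_, ?_⟩
          · rintro rfl
            rw [hactτ, sub_self] at hρ
            exact hρ rfl
          · intro h0
            rcases hall ρ with h | h
            · rw [h, sub_self] at hρ
              exact hρ rfl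
            · rw [h, hf, h0] at hρ
              exact hρ (by norm_num)
        have hcard : (supp f').card ≤ n := by
          have h1 := Finset.card_le_card hsub
          rw [Finset.card_erase_of_mem (mem_supp.2 hτ0)] at h1
          omega
        have h0 := ih f' hodd hR' hcard σ
        rw [hval, hactσ, hf] at h0
        omega
      · push Not at hex
        refine zero_of_pair hu hne hf hR σ fun ρ h1 h2 => ?_
        by_contra h3
        exact h2 (hex ρ h3 h1)
  intro f hf hR σ
  exact key _ f hf hR le_rfl σ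

theorem noRel_of_free (h : IsFree ι α) : NoRel ι α := by
  rcases h with ⟨a, d, h1, h2, h3⟩ | ⟨h1, h2, h3⟩
  · exact noRel_good h1 h2 h3
  · exact noRel_separated h1 h2 h3

end Pool.Agent.T2H38.HK
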