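import Pool.Agent.T2H38.HK.Rel
import Pool.Agent.Y103.Hk.Main2

/-!
# The slopes of the varieties built from pieces of K3 type
-/

set_option autoImplicit false
set_option linter.unusedSectionVars false

open CategoryTheory AlgebraicGeometry NumberField Polynomial
open scoped TensorProduct

universe u v

namespace Pool.Agent.T2H38.HK

open Pool.Agent.H914 Pool.Agent.H914.VarClass Pool.Agent.H914.VarClass.Obj
  Pool.Agent.H914.WeilCohomology Pool.Agent.H281R3.HT Pool.Agent.W552 Pool.Agent.W534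
  Pool.Agent.W458.RK Pool.Agent.W458.MF Pool.Agent.TH132.A Pool.Agent.W536.RR
  Pool.Agent.TH121.KT Pool.Agent.W517.K3 Pool.Agent.Y138.KC Pool.Agent.Y103.Hk
  Pool.Agent.Y103.Sh

section arith

variable {p : ℕ} [Fact p.Prime] {ι : Qb →+* PadicAlgCl p} {Ω : Type*} [Field Ω] [CharZero Ω]

lemma slope_rat (L : IntermediateField ℚ Qb) (q : ℚ) : SlopeRoot ι L (q : Ω) := by
  refine ⟨X - C q, X_sub_C_ne_zero q, ?_, ?_⟩
  · intro h _ γ hγ
    rw [map_sub, aeval_X, aeval_C, sub_eq_zero] at hγ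
    rw [hγ, AlgEquiv.commutes]
  · rw [map_sub, aeval_X, aeval_C, sub_eq_zero]
    exact (eq_ratCast (algebraMap ℚ Ω) q).symm

lemma slope_emb {E : Type} [Field E] [NumberField E] [IsCMField E] (α : E) (σ : E →+* Ω) :
    SlopeRoot ι (galoisClosure E) (σ α) := by
  refine ⟨minpoly ℚ α, minpoly.ne_zero (Algebra.IsIntegral.isIntegral α), ?_, ?_⟩
  · intro h hh γ hγ
    have h1 : γ ∈ (minpoly ℚ α).rootSet Qb :=
      (mem_rootSet.2 ⟨minpoly.ne_zero (Algebra.IsIntegral.isIntegral α), hγ⟩)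
    rw [← Algebra.IsAlgebraic.range_eval_eq_rootSet_minpoly Qb α] at h1
    obtain ⟨τ, rfl⟩ := h1
    have h2 : τ α ∈ galoisClosure E := mem_closure (τ : E →+* Qb) α
    change ‖ι (h (τ α))‖ = ‖ι (τ α)‖
    rw [hh _ h2]
  · have h1 : aeval (σ.toRatAlgHom α) (minpoly ℚ α) = 0 := by
      rw [Polynomial.aeval_algHom_apply, minpoly.aeval, map_zero]
    exact h1

lemma slope_mono {L L' : IntermediateField ℚ Qb} (h : L ≤ L') {β : Ω} (hβ : SlopeRoot ι L β) :
    SlopeRoot ι L' β := by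
  obtain ⟨Q, h0, h1, h2⟩ := hβ
  exact ⟨Q, h0, fun g hg => h1 g fun x hx => hg x (h hx), h2⟩

lemma inM_mono {𝓛 𝓛' : Set (IntermediateField ℚ Qb)} (h : 𝓛 ⊆ 𝓛') {ν : Ω}
    (hν : IsSlopeProduct ι 𝓛 ν) : IsSlopeProduct ι 𝓛' ν := by
  obtain ⟨t, l, h0, h1, h2⟩ := hν
  exact ⟨t, l, h0, h1, fun β hβ => by
    obtain ⟨L, hL, h3⟩ := h2 β hβ
    exact ⟨L, h hL, h3⟩⟩

lemma inM_of_slope {𝓛 : Set (IntermediateField ℚ Qb)} {L : IntermediateField ℚ Qb} (hL : L ∈ 𝓛)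
    {ν : Ω} (hν : SlopeRoot ι L ν) : IsSlopeProduct ι 𝓛 ν :=
  ⟨1, [ν], one_pos, by simp, fun β hβ => ⟨L, hL, by
    rw [List.mem_singleton] at hβ
    rwa [hβ]⟩⟩

lemma inM_prod {𝓛 : Set (IntermediateField ℚ Qb)} {κ : Type*} (s : Finset κ) (f : κ → Ω)
    (h : ∀ i ∈ s, IsSlopeProduct ι 𝓛 (f i)) : IsSlopeProduct ι 𝓛 (∏ i ∈ s, f i) :=
  Finset.prod_induction f (fun ν => IsSlopeProduct ι 𝓛 ν) (fun _ _ => inM_mul) (inM_one 𝓛) h

/-- Products of numbers with slopes in `𝓛` have slopes in the compositum of `𝓛`. -/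
theorem inL_of_inM [IsAlgClosed Ω] {𝓛 : Set (IntermediateField ℚ Qb)} {ν : Ω}
    (hν : IsSlopeProduct ι 𝓛 ν) : InL p ι (sSup 𝓛) ν := by
  let τ : Qb →+* Ω := (IsAlgClosed.lift : Qb →ₐ[ℚ] Ω).toRingHom
  obtain ⟨t, l, ht, hν, hl⟩ := hν
  obtain ⟨l', rfl, hl'⟩ := exists_list τ l hl
  set π : Qb := l'.prod with hπ
  have hint : IsIntegral ℚ π := Algebra.IsIntegral.isIntegral π
  have hτ : τ π = ν ^ t := by
    rw [hν, hπ, map_list_prod]
  refine ⟨(expand ℚ t) (minpoly ℚ π), ν, 1, one_pos, ?_, ?_, ?_, (pow_one ν).symm⟩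
  · intro h
    rw [expand_eq_zero ht] at h
    exact minpoly.ne_zero hint h
  · intro h hh γ hγ
    rw [expand_aeval] at hγ
    obtain ⟨g, hg⟩ : ∃ g : GQ, g π = γ ^ t := by
      obtain ⟨g, hg⟩ :=
        minpoly.exists_algEquiv_of_root' (Algebra.IsAlgebraic.isAlgebraic (R := ℚ) π) hγ
      exact ⟨g, hg⟩
    have hmain : ‖ι (h (g π))‖ = ‖ι (g π)‖ := by
      have h1 : ∀ (m : List Qb), (∀ β ∈ m, ∃ L ∈ 𝓛, SlopeRoot ι L β) →
          ‖ι (h (g m.prod))‖ = ‖ι (g m.prod)‖ := by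
        intro m
        induction m with
        | nil => intro _; rw [List.prod_nil, map_one, map_one]
        | cons β m ih =>
          intro hm
          rw [List.prod_cons, map_mul, map_mul, map_mul, map_mul, norm_mul, norm_mul,
            ih fun β' hβ' => hm β' (List.mem_cons_of_mem _ hβ')]
          congr 1
          obtain ⟨L, hL, Q, -, hLQ, h0⟩ := hm β List.mem_cons_self
          refine hLQ h (fun x hx => hh x ((le_sSup hL) hx)) (g β) ?_
          have h2 : aeval ((g : Qb →ₐ[ℚ] Qb) β) Q = 0 := by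
            rw [Polynomial.aeval_algHom_apply, h0, map_zero]
          exact h2
      exact h1 l' hl'
    rw [hg, map_pow, map_pow, map_pow, norm_pow, norm_pow] at hmain
    exact (pow_left_inj₀ (norm_nonneg _) (norm_nonneg _) ht.ne').1 hmain
  · rw [expand_aeval, ← hτ]
    have h1 : aeval ((IsAlgClosed.lift : Qb →ₐ[ℚ] Ω) π) (minpoly ℚ π) = 0 := by
      rw [Polynomial.aeval_algHom_apply, minpoly.aeval, map_zero]
    exact h1

end arith

variable {k : Type u} [Field k] {𝒱 : VarClass k} {ops : CycleOps 𝒱}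
  {W : WeilCohomology.{u, v} ops} {p : ℕ} [Fact p.Prime] {Φ : FrobSystem W p}
  {ι : Qb →+* PadicAlgCl p} {X Z U : 𝒱.Obj} {b e n : ℕ} {E : Type} [Field E] [NumberField E]
  [IsCMField E] {α : E}

/-- the tower condition in the form used: smaller classes of eigenvalues -/
lemma timesP_mono {PP PP' : W.K → Prop} (h : ∀ ν, PP' ν → PP ν) (hT : TateTimesP Φ PP Z) :
    TateTimesP Φ PP' Z :=
  fun s hs V _ _ _ G hG c a x hx => hT s hs V G (fun ν hν => h ν (hG ν hν)) c a x hx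

/-- **The slopes of `Z` are determined by the Galois closure of `E`.** -/
theorem hasSlopes_built [IsAlgClosed W.K] (he : 0 < e) (hZ : IsBuiltFrom Φ X b e α n Z) :
    HasSlopes Φ ι {galoisClosure E} Z := by
  classical
  intro ν hν
  have hQ : ∀ t, (card Φ Z t : W.K) ≠ 0 := fun t => card_ne Φ t
  obtain ⟨x, hx⟩ := hν.exists_hasEigenvector
  have hx1 : frob Φ Z 1 x = ν • x := by
    rw [frob_pow_eq', pow_one]
    exact hx.apply_eq_smul
  obtain ⟨T, hT, h0⟩ := Y103.Hk.span_good (Y103.Hk.span_words hZ x)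
  have h1 := h0 1 one_pos
  rw [mul_one] at h1
  have hxT : frob Φ Z T x = ν ^ T • x := by
    rw [frob_pow_eq']
    exact (hx.pow_apply T)
  have h2 : x ∈ Module.End.maxGenEigenspace (frob Φ Z T) (ν ^ T) := eig_mem_gen hxT
  have heig : ∀ v ∈ Y103.Hk.GoodWords Φ X b e α n Z T, ∃ (ω : W.K) (A : ℤ) (M : ℕ)
      (L : List (Y103.Hk.Lt Φ X b e α Z)), frob Φ Z T v = ω • v ∧ 0 < M ∧
      ω ^ (e * Φ.e X * M) = (card Φ Z T : W.K) ^ A *
        ∏ σ : E →+* W.K, (σ α) ^ (T * Φ.e Z * M * Y103.Hk.mult L σ) := by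
    rintro v ⟨L, j, M, c, hLn, hM, hc, hL, hcyc, rfl⟩
    obtain ⟨ω, A, h3, h4⟩ := Y103.Hk.word_eigen L hL
    refine ⟨ω * (card Φ Z T : W.K) ^ j, A + (j * (e * Φ.e X * M) : ℕ), M, L, ?_, hM, ?_⟩
    · rw [frob_mul_apply, h3, hcyc, smul_mul_smul_comm]
    · rw [mul_pow, h4, prod_letters', zpow_add₀ (hQ T), zpow_natCast, ← pow_mul]
      ring
  have h3 := mem_span_gen (T := frob Φ Z T) (fun v hv => by
    obtain ⟨ω, _, _, _, h, _, _⟩ := heig v hv
    exact ⟨ω, eig_mem_gen h⟩) h1 h2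
  -- a nonzero word with this eigenvalue
  obtain ⟨v, hv, hvν, hv0⟩ : ∃ v ∈ Y103.Hk.GoodWords Φ X b e α n Z T,
      v ∈ Module.End.maxGenEigenspace (frob Φ Z T) (ν ^ T) ∧ v ≠ 0 := by
    by_contra hcon
    push Not at hcon
    apply hx.2
    have h4 := (Submodule.span_le (p := (⊥ : Submodule W.K (W.H Z)))).2
      (fun v (hv : v ∈ _) => by
        obtain ⟨hv1, hv2⟩ := hv
        exact (Submodule.mem_bot _).2 (hcon v hv1 hv2)) h3
    exact (Submodule.mem_bot _).1 h4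
  obtain ⟨ω, A, M, L, h4, hM, h5⟩ := heig v hv
  have h6 : ω = ν ^ T := eq_of_mem_gen (eig_mem_gen h4) hvν hv0
  have hmem : galoisClosure E ∈ ({galoisClosure E} : Set (IntermediateField ℚ Qb)) := rfl
  have h7 : IsSlopeProduct ι {galoisClosure E} (ν ^ (T * (e * Φ.e X * M))) := by
    rw [pow_mul, ← h6, h5]
    refine inM_mul ?_ (inM_prod _ _ fun σ _ => inM_pow _ _ (inM_of_slope hmem (slope_emb α σ)))
    have h8 : (card Φ Z T : W.K) ^ A = (((card Φ Z T : ℚ) ^ A : ℚ) : W.K) := by push_cast; rfl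
    rw [h8]
    exact inM_of_slope hmem (slope_rat _ _)
  exact inM_root (Nat.mul_pos hT (Nat.mul_pos (Nat.mul_pos he (Φ.e_pos _)) hM)) h7

lemma hasSlopes_mono {𝓛 𝓛' : Set (IntermediateField ℚ Qb)} (h : 𝓛 ⊆ 𝓛')
    (hU : HasSlopes Φ ι 𝓛 U) : HasSlopes Φ ι 𝓛' U := fun ν hν => inM_mono h (hU ν hν)

end Pool.Agent.T2H38.HK
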